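import Pool.Agent.LeoG.UpStmts
import Pool.Agent.Helper11_LeoK.Den

/-! DEN: residue classes of forms with the local conditions at the primes of a finite set. -/

set_option autoImplicit false

open NumberField IsDedekindDomain Module

namespace Pool.Agent.LeoG.H89

open Pool.Agent.LeoK Pool.Agent.LeoG
open Pool.Agent.LeoK.H11 (ncard_preimage sq_ne_bot card_quot coprime_insert prod_ne_bot df_nonneg)

variable {k : Type} [Field k] [NumberField k]

theorem dsc_map {A B : Type} [CommRing A] [CommRing B] (f : A →+* B) (v : Q4 A) :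
    dsc (fun i => f (v i)) = f (dsc v) := by
  simp only [dsc, map_sub, map_add, map_mul, map_pow, map_ofNat]

theorem mm_map {A B : Type} [CommRing A] [CommRing B] (f : A →+* B) (v : Q4 A) :
    mm (fun i => f (v i)) = f (mm v) := by
  simp only [mm, dsc_map, map_neg]

theorem card_ne {A : Type} [CommRing A] :
    Nat.card {v : Q4 A // mm v ≠ 0} = Nat.card {v : Q4 A // dsc v ≠ 0} :=
  Nat.card_congr (Equiv.subtypeEquivRight fun v => by rw [mm, Ne, neg_eq_zero])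

theorem card_sq {A : Type} [CommRing A] :
    Nat.card {v : Q4 A // ∀ x : A, x ^ 2 + mm v ≠ 0} =
      Nat.card {v : Q4 A // ∀ x : A, x ^ 2 ≠ dsc v} :=
  Nat.card_congr (Equiv.subtypeEquivRight fun v =>
    forall_congr' fun x => by rw [mm, ← sub_eq_add_neg, Ne, sub_eq_zero])

/-- the classes at one prime -/
def Sp (p : HeightOneSpectrum (𝓞 k)) : Set (Q4 (𝓞 k ⧸ p.asIdeal ^ 2)) :=
  modQ (p.asIdeal ^ 2) '' {v | LocOK p (mm v)}

/-- the preimage at one prime -/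
theorem pre (p : HeightOneSpectrum (𝓞 k)) (W : Set (Q4 (𝓞 k ⧸ p.asIdeal)))
    (hW : ∀ v : Q4 (𝓞 k), LocOK p (mm v) → (fun i => Ideal.Quotient.mk p.asIdeal (v i)) ∈ W)
    (c : ℝ) (hc : (W.ncard : ℝ) ≤ np p ^ 4 * c) : ((Sp p).ncard : ℝ) ≤ np p ^ 8 * c := by
  have : Finite (𝓞 k ⧸ p.asIdeal ^ 2) := Ideal.finiteQuotientOfFreeOfNeBot _ (sq_ne_bot p)
  have : Finite (𝓞 k ⧸ p.asIdeal) := Ideal.finiteQuotientOfFreeOfNeBot _ p.ne_bot
  have hle : p.asIdeal ^ 2 ≤ p.asIdeal := Ideal.pow_le_self two_ne_zero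
  have h1 : Sp p ⊆ {w | (fun i => Ideal.Quotient.factor hle (w i)) ∈ W} := by
    rintro w ⟨v, hv, rfl⟩
    exact hW v hv
  have h2 := Set.ncard_le_ncard h1 (Set.toFinite _)
  have h3 := ncard_preimage (Ideal.Quotient.factor hle) (Ideal.Quotient.factor_surjective hle)
    (Ideal.absNorm p.asIdeal) (by rw [card_quot, map_pow]) (card_quot _) W
  have h4 : ((Sp p).ncard : ℝ) ≤ np p ^ 4 * (W.ncard : ℝ) := by
    have := h2.trans h3
    unfold np
    exact_mod_cast this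
  calc ((Sp p).ncard : ℝ) ≤ np p ^ 4 * (W.ncard : ℝ) := h4
    _ ≤ np p ^ 4 * (np p ^ 4 * c) := mul_le_mul_of_nonneg_left hc (by unfold np; positivity)
    _ = np p ^ 8 * c := by ring

theorem prime_bound (h5 : LeoG.Ld5Stmt) (h2 : LeoG.Ld2Stmt) (h3 : LeoG.Ld3Stmt) (p : HeightOneSpectrum (𝓞 k)) :
    ((Sp p).ncard : ℝ) ≤ np p ^ 8 * df p := by
  classical
  have : Finite (𝓞 k ⧸ p.asIdeal) := Ideal.finiteQuotientOfFreeOfNeBot _ p.ne_bot
  have hmax : p.asIdeal.IsMaximal := p.isPrime.isMaximal p.ne_bot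
  by_cases c2 : (2 : 𝓞 k) ∈ p.asIdeal
  · let _ : Field (𝓞 k ⧸ p.asIdeal) := Ideal.Quotient.field p.asIdeal
    let _ : Fintype (𝓞 k ⧸ p.asIdeal) := Fintype.ofFinite _
    have hcard : ((Fintype.card (𝓞 k ⧸ p.asIdeal) : ℕ) : ℝ) = np p := by
      rw [← Nat.card_eq_fintype_card, card_quot]
      rfl
    have h20 : (2 : 𝓞 k ⧸ p.asIdeal) = 0 := by
      have := Ideal.Quotient.eq_zero_iff_mem.2 c2
      rwa [map_ofNat] at this
    have h := h2 (𝓞 k ⧸ p.asIdeal) h20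
    rw [hcard] at h
    refine pre p {w | mm w ≠ 0} (fun v hv => ?_) _ ?_
    · show mm _ ≠ 0
      rw [mm_map, Ne, Ideal.Quotient.eq_zero_iff_mem]
      exact hv.two c2
    · have h' : (({w | mm w ≠ 0} : Set (Q4 (𝓞 k ⧸ p.asIdeal))).ncard : ℝ) =
          (Nat.card {v : Q4 (𝓞 k ⧸ p.asIdeal) // mm v ≠ 0} : ℝ) := rfl
      rw [h', card_ne, h, df, dm, if_pos c2]
      apply le_of_eq
      ring
  · by_cases c3 : (3 : 𝓞 k) ∈ p.asIdeal
    · let _ : Field (𝓞 k ⧸ p.asIdeal) := Ideal.Quotient.field p.asIdeal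
      let _ : Fintype (𝓞 k ⧸ p.asIdeal) := Fintype.ofFinite _
      have hcard : ((Fintype.card (𝓞 k ⧸ p.asIdeal) : ℕ) : ℝ) = np p := by
        rw [← Nat.card_eq_fintype_card, card_quot]
        rfl
      have h30 : (3 : 𝓞 k ⧸ p.asIdeal) = 0 := by
        have := Ideal.Quotient.eq_zero_iff_mem.2 c3
        rwa [map_ofNat] at this
      have h := h3 (𝓞 k ⧸ p.asIdeal) h30
      rw [hcard] at h
      refine pre p {w | ∀ x, x ^ 2 + mm w ≠ 0} (fun v hv x => ?_) _ ?_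
      · obtain ⟨y, rfl⟩ := Ideal.Quotient.mk_surjective x
        rw [mm_map, ← map_pow, ← map_add, Ne, Ideal.Quotient.eq_zero_iff_mem]
        exact hv.three c3 y
      · have h' : (({w | ∀ x, x ^ 2 + mm w ≠ 0} : Set (Q4 (𝓞 k ⧸ p.asIdeal))).ncard : ℝ) =
            (Nat.card {v : Q4 (𝓞 k ⧸ p.asIdeal) // ∀ x, x ^ 2 + mm v ≠ 0} : ℝ) := rfl
        rw [h', card_sq, h, df, dm, if_neg c2, if_pos c3]
        apply le_of_eq
        ring
    · have c6 : (6 : 𝓞 k) ∉ p.asIdeal := by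
        intro h
        have : (6 : 𝓞 k) = 2 * 3 := by norm_num
        rw [this] at h
        rcases p.isPrime.mem_or_mem h with h | h
        · exact c2 h
        · exact c3 h
      have h := h5 k p c6
      have : Finite (𝓞 k ⧸ p.asIdeal ^ 2) := Ideal.finiteQuotientOfFreeOfNeBot _ (sq_ne_bot p)
      have h1 : Sp p ⊆ {w | mm w ≠ 0} := by
        rintro w ⟨v, hv, rfl⟩
        show mm (fun i => Ideal.Quotient.mk (p.asIdeal ^ 2) (v i)) ≠ 0
        rw [mm_map, Ne, Ideal.Quotient.eq_zero_iff_mem]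
        exact hv.sqf
      have h2 : ((Sp p).ncard : ℝ) ≤
          (({w | mm w ≠ 0} : Set (Q4 (𝓞 k ⧸ p.asIdeal ^ 2))).ncard : ℝ) := by
        exact_mod_cast Set.ncard_le_ncard h1 (Set.toFinite _)
      refine h2.trans ?_
      have h' : (({w | mm w ≠ 0} : Set (Q4 (𝓞 k ⧸ p.asIdeal ^ 2))).ncard : ℝ) =
          (Nat.card {v : Q4 (𝓞 k ⧸ p.asIdeal ^ 2) // mm v ≠ 0} : ℝ) := rfl
      rw [h', card_ne, h, df, dm, if_neg c2, if_neg c3]
      apply le_of_eq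
      ring

/-- the classes modulo the product -/
def SQ (Q : Finset (HeightOneSpectrum (𝓞 k))) : Set (Q4 (𝓞 k ⧸ ∏ p ∈ Q, p.asIdeal ^ 2)) :=
  modQ (∏ p ∈ Q, p.asIdeal ^ 2) '' {v | ∀ p ∈ Q, LocOK p (mm v)}

theorem SQ_bound (h5 : LeoG.Ld5Stmt) (h2 : LeoG.Ld2Stmt) (h3 : LeoG.Ld3Stmt)
    (Q : Finset (HeightOneSpectrum (𝓞 k))) :
    ((SQ Q).ncard : ℝ) ≤ ∏ p ∈ Q, (np p ^ 8 * df p) := by
  classical
  induction Q using Finset.induction_on with
  | empty =>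
    have hsub : Subsingleton (Q4 (𝓞 k ⧸ ∏ p ∈ (∅ : Finset (HeightOneSpectrum (𝓞 k))),
        p.asIdeal ^ 2)) := by
      have : Subsingleton (𝓞 k ⧸ ∏ p ∈ (∅ : Finset (HeightOneSpectrum (𝓞 k))),
          p.asIdeal ^ 2) := by
        rw [Finset.prod_empty, Ideal.one_eq_top]
        exact Ideal.Quotient.subsingleton_iff.2 rfl
      exact Pi.instSubsingleton
    have := Set.ncard_le_one_of_subsingleton (SQ (k := k) ∅)
    calc ((SQ (k := k) ∅).ncard : ℝ) ≤ 1 := by exact_mod_cast this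
      _ = _ := Finset.prod_empty.symm
  | insert p Q hp ih =>
    have : Finite (𝓞 k ⧸ p.asIdeal ^ 2) := Ideal.finiteQuotientOfFreeOfNeBot _ (sq_ne_bot p)
    have : Finite (𝓞 k ⧸ ∏ q ∈ Q, q.asIdeal ^ 2) :=
      Ideal.finiteQuotientOfFreeOfNeBot _ (prod_ne_bot Q)
    have hN : ∏ q ∈ insert p Q, q.asIdeal ^ 2 =
        p.asIdeal ^ 2 ⊓ ∏ q ∈ Q, q.asIdeal ^ 2 := by
      rw [Finset.prod_insert hp, Ideal.inf_eq_mul_of_isCoprime (coprime_insert hp)]
    have l1 : ∏ q ∈ insert p Q, q.asIdeal ^ 2 ≤ p.asIdeal ^ 2 := hN.le.trans inf_le_left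
    have l2 : ∏ q ∈ insert p Q, q.asIdeal ^ 2 ≤ ∏ q ∈ Q, q.asIdeal ^ 2 :=
      hN.le.trans inf_le_right
    let f : Q4 (𝓞 k ⧸ ∏ q ∈ insert p Q, q.asIdeal ^ 2) →
        Q4 (𝓞 k ⧸ p.asIdeal ^ 2) × Q4 (𝓞 k ⧸ ∏ q ∈ Q, q.asIdeal ^ 2) := fun w =>
      (fun i => Ideal.Quotient.factor l1 (w i), fun i => Ideal.Quotient.factor l2 (w i))
    have hmaps : ∀ w ∈ SQ (insert p Q), f w ∈ (Sp p) ×ˢ (SQ Q) := by
      rintro w ⟨v, hv, rfl⟩
      exact ⟨⟨v, hv p (Finset.mem_insert_self _ _), rfl⟩,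
        ⟨v, fun q hq => hv q (Finset.mem_insert_of_mem hq), rfl⟩⟩
    have hinj : Set.InjOn f (SQ (insert p Q)) := by
      rintro _ ⟨v, -, rfl⟩ _ ⟨v', -, rfl⟩ h
      have e1 : ∀ i, Ideal.Quotient.mk (p.asIdeal ^ 2) (v i) =
          Ideal.Quotient.mk (p.asIdeal ^ 2) (v' i) := fun i =>
        congrFun (congrArg Prod.fst h) i
      have e2 : ∀ i, Ideal.Quotient.mk (∏ q ∈ Q, q.asIdeal ^ 2) (v i) =
          Ideal.Quotient.mk (∏ q ∈ Q, q.asIdeal ^ 2) (v' i) := fun i =>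
        congrFun (congrArg Prod.snd h) i
      funext i
      show Ideal.Quotient.mk _ (v i) = Ideal.Quotient.mk _ (v' i)
      rw [Ideal.Quotient.eq, hN]
      exact ⟨Ideal.Quotient.eq.1 (e1 i), Ideal.Quotient.eq.1 (e2 i)⟩
    have hle := Set.ncard_le_ncard_of_injOn f hmaps hinj (Set.toFinite _)
    rw [Set.ncard_prod] at hle
    calc ((SQ (insert p Q)).ncard : ℝ) ≤ ((Sp p).ncard : ℝ) * ((SQ Q).ncard : ℝ) := by
          exact_mod_cast hle
      _ ≤ (np p ^ 8 * df p) * ∏ p ∈ Q, (np p ^ 8 * df p) :=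
        mul_le_mul (prime_bound h5 h2 h3 p) ih (by positivity)
          (mul_nonneg (by unfold np; positivity) (df_nonneg p))
      _ = _ := (Finset.prod_insert (f := fun p => np p ^ 8 * df p) hp).symm

theorem den (h5 : LeoG.Ld5Stmt) (h2 : LeoG.Ld2Stmt) (h3 : LeoG.Ld3Stmt) : LeoG.DenStmt := by
  intro k _ _ Q
  refine ⟨SQ Q, fun v hv => ⟨v, hv, rfl⟩, ?_⟩
  have h := SQ_bound h5 h2 h3 Q
  rw [Finset.prod_mul_distrib] at h
  have hn : (Ideal.absNorm (∏ p ∈ Q, p.asIdeal ^ 2) : ℝ) ^ 4 = ∏ p ∈ Q, np p ^ 8 := by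
    rw [map_prod]
    push_cast
    rw [← Finset.prod_pow]
    refine Finset.prod_congr rfl fun p _ => ?_
    rw [map_pow]
    unfold np
    push_cast
    ring
  have hpos : (0 : ℝ) < (Ideal.absNorm (∏ p ∈ Q, p.asIdeal ^ 2) : ℝ) ^ 4 := by
    have : Ideal.absNorm (∏ p ∈ Q, p.asIdeal ^ 2) ≠ 0 := by
      rw [Ne, Ideal.absNorm_eq_zero_iff]
      exact prod_ne_bot Q
    have : 0 < Ideal.absNorm (∏ p ∈ Q, p.asIdeal ^ 2) := Nat.pos_of_ne_zero this
    positivity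
  rw [div_le_iff₀ hpos, hn, mul_comm]
  exact h

end Pool.Agent.LeoG.H89
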